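import Pool.Agent.MP_344049_nt.rz.Pair

/-! Three parabolas `1 + v`, `2 v`, `v (1 + v)` for a non-square `v`. -/

set_option autoImplicit false

namespace Pool.Agent.MP_344049_nt.RZ

open Finset

variable {p : ℕ} [hp : Fact p.Prime]

/-- admissible parameters -/
structure Adm (v : ZMod p) : Prop where
  ns : ¬ IsSquare v
  two : (2 : ZMod p) ≠ 0
  h1 : 1 + v ≠ 0
  h2 : 1 + 3 * v ≠ 0
  h3 : 3 + v ≠ 0

lemma exists_adm (h : 11 ≤ p) : ∃ v : ZMod p, Adm v := by
  have hk : ∀ k : ℕ, 0 < k → k < 11 → (k : ZMod p) ≠ 0 := fun k h0 h1 e =>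
    absurd (Nat.le_of_dvd h0 ((ZMod.natCast_eq_zero_iff k p).1 e)) (by omega)
  have k2 : (2 : ZMod p) ≠ 0 := by exact_mod_cast hk 2 (by norm_num) (by norm_num)
  have k3 : (3 : ZMod p) ≠ 0 := by exact_mod_cast hk 3 (by norm_num) (by norm_num)
  have k5 : (5 : ZMod p) ≠ 0 := by exact_mod_cast hk 5 (by norm_num) (by norm_num)
  have k7 : (7 : ZMod p) ≠ 0 := by exact_mod_cast hk 7 (by norm_num) (by norm_num)
  obtain ⟨w, hw⟩ := FiniteField.exists_nonsquare (F := ZMod p)
    (by rw [ZMod.ringChar_zmod_n]; omega)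
  have w0 : w ≠ 0 := fun e => hw (e ▸ IsSquare.zero)
  have ns : ∀ c : ZMod p, c ≠ 0 → ¬ IsSquare (c * c * w) := fun c hc ⟨z, hz⟩ =>
    hw ⟨z / c, by field_simp; linear_combination hz⟩
  by_contra hn
  have bad : ∀ c : ZMod p, c ≠ 0 → c * c * w ∈ ({-1, -1 / 3, -3} : Finset (ZMod p)) := by
    intro c hc
    by_contra hb
    simp only [mem_insert, mem_singleton, not_or] at hb
    refine hn ⟨c * c * w, ns c hc, k2, fun e => hb.1 (by linear_combination e),
      fun e => hb.2.1 (by field_simp; linear_combination e),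
      fun e => hb.2.2 (by linear_combination e)⟩
  have sub : ({1 * 1 * w, 2 * 2 * w, 3 * 3 * w, 2 * 2 * (2 * 2) * w} : Finset (ZMod p)) ⊆
      {-1, -1 / 3, -3} := by
    simp only [insert_subset_iff, singleton_subset_iff]
    exact ⟨bad 1 one_ne_zero, bad 2 k2, bad 3 k3, bad _ (mul_ne_zero k2 k2)⟩
  have ne : ∀ a b c : ZMod p, c ≠ 0 → b - a = c → a * w ≠ b * w := fun a b c hc e h =>
    hc (by rw [← e, mul_right_cancel₀ w0 h, sub_self])
  have c4 : #({1 * 1 * w, 2 * 2 * w, 3 * 3 * w, 2 * 2 * (2 * 2) * w} : Finset (ZMod p)) = 4 := by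
    rw [card_insert_of_notMem, card_insert_of_notMem, card_pair]
    · exact ne _ _ 7 k7 (by norm_num)
    · simp only [mem_insert, mem_singleton, not_or]
      exact ⟨ne _ _ 5 k5 (by norm_num),
        ne _ _ _ (mul_ne_zero k3 (mul_ne_zero k2 k2)) (by norm_num)⟩
    · simp only [mem_insert, mem_singleton, not_or]
      exact ⟨ne _ _ 3 k3 (by norm_num), ne _ _ _ (mul_ne_zero k2 (mul_ne_zero k2 k2)) (by norm_num),
        ne _ _ _ (mul_ne_zero k3 k5) (by norm_num)⟩
  have := (card_le_card sub).trans card_le_three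
  omega

variable {v : ZMod p}

lemma Adm.ne (h : Adm v) : v ≠ 0 := fun e => h.ns (e ▸ IsSquare.zero)

lemma mem00 {c d u : ZMod p} :
    u ∈ rho (2 * v) (2 * v) c d ↔ v * (2 * u - c) ^ 2 = d - v * c ^ 2 := by
  simp only [rho, mem_filter, mem_univ, true_and]
  constructor <;> intro h <;> linear_combination h

lemma memmp {c d u : ZMod p} :
    u ∈ rho (1 + v) (v * (1 + v)) c d ↔ ((1 + v) * u - v * c) ^ 2 = d - v * c ^ 2 := by
  simp only [rho, mem_filter, mem_univ, true_and]
  constructor <;> intro h <;> linear_combination h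

lemma mempm {c d u : ZMod p} :
    u ∈ rho (v * (1 + v)) (1 + v) c d ↔ ((1 + v) * u - c) ^ 2 = d - v * c ^ 2 := by
  simp only [rho, mem_filter, mem_univ, true_and]
  constructor <;> intro h <;> linear_combination h

lemma Adm.cover (h : Adm v) (c d : ZMod p) :
    (rho (2 * v) (2 * v) c d).Nonempty ∨ (rho (1 + v) (v * (1 + v)) c d).Nonempty := by
  have h0 := h.ne
  have h1 := h.h1
  have h2 := h.two
  by_cases hs : IsSquare (d - v * c ^ 2)
  · obtain ⟨z, hz⟩ := hs
    exact Or.inr ⟨(z + v * c) / (1 + v), memmp.2 (by rw [hz]; field_simp; ring)⟩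
  · have e : quadraticChar (ZMod p) (v * (d - v * c ^ 2)) = 1 := by
      rw [map_mul, quadraticChar_neg_one_iff_not_isSquare.2 hs,
        quadraticChar_neg_one_iff_not_isSquare.2 h.ns]
      norm_num
    obtain ⟨z, hz⟩ := (quadraticChar_one_iff_isSquare
      (mul_ne_zero h0 fun e => hs (by rw [e]; exact IsSquare.zero))).1 e
    refine Or.inl ⟨(z / v + c) / 2, mem00.2 ?_⟩
    field_simp
    linear_combination -hz

lemma Adm.joint (h : Adm v) (c d : ZMod p) (A B : ℕ) :
    A * #(rho (2 * v) (2 * v) c d) + B * #(rho (1 + v) (v * (1 + v)) c d) +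
      B * #(rho (v * (1 + v)) (1 + v) c d) ≤ max (2 * A) (4 * B) := by
  have h0 := h.ne
  have h1 := h.h1
  have a1 := rho_le (l := 2 * v) (l' := 2 * v)
    (by rw [← two_mul]; exact mul_ne_zero h.two (mul_ne_zero h.two h0)) c d
  have a2 := rho_le (l := 1 + v) (l' := v * (1 + v))
    (by rw [← one_add_mul]; exact mul_ne_zero h1 h1) c d
  have a3 := rho_le (l := v * (1 + v)) (l' := 1 + v)
    (by rw [← add_one_mul, add_comm v]; exact mul_ne_zero h1 h1) c d
  have m1 := le_max_left (2 * A) (4 * B)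
  have m2 := le_max_right (2 * A) (4 * B)
  by_cases hD : d - v * c ^ 2 = 0
  · have b1 : #(rho (2 * v) (2 * v) c d) ≤ 1 := card_le_one.2 fun a ha b hb => by
      rw [mem00, hD, mul_eq_zero, pow_eq_zero_iff two_ne_zero, or_iff_right h0] at ha hb
      exact mul_left_cancel₀ h.two (by linear_combination ha - hb)
    have b2 : #(rho (1 + v) (v * (1 + v)) c d) ≤ 1 := card_le_one.2 fun a ha b hb => by
      rw [memmp, hD, pow_eq_zero_iff two_ne_zero] at ha hb
      exact mul_left_cancel₀ h1 (by linear_combination ha - hb)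
    have b3 : #(rho (v * (1 + v)) (1 + v) c d) ≤ 1 := card_le_one.2 fun a ha b hb => by
      rw [mempm, hD, pow_eq_zero_iff two_ne_zero] at ha hb
      exact mul_left_cancel₀ h1 (by linear_combination ha - hb)
    have := Nat.mul_le_mul_left A b1
    have := Nat.mul_le_mul_left B b2
    have := Nat.mul_le_mul_left B b3
    omega
  rcases (rho (2 * v) (2 * v) c d).eq_empty_or_nonempty with e | ⟨u, hu⟩
  · have := Nat.mul_le_mul_left B a2
    have := Nat.mul_le_mul_left B a3
    rw [e, card_empty]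
    omega
  · rw [mem00] at hu
    have key : ∀ z : ZMod p, z ^ 2 ≠ d - v * c ^ 2 := fun z hz => by
      have hx : 2 * u - c ≠ 0 := fun e => hD (by rw [← hu, e]; ring)
      exact h.ns ⟨z / (2 * u - c), by field_simp; linear_combination hu - hz⟩
    rw [eq_empty_of_forall_notMem fun u hu => key _ (memmp.1 hu),
      eq_empty_of_forall_notMem fun u hu => key _ (mempm.1 hu), card_empty]
    have := Nat.mul_le_mul_left A a1
    omega

end Pool.Agent.MP_344049_nt.RZ
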