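import Pool.Agent.MP_344049_nt.rz.Dich

/-! The three windows, the count, and the bound for every modulus. -/

set_option autoImplicit false

namespace Pool.Agent.MP_344049_nt.RZ

open Finset

/-- numbers of lifts for the six kinds of pairs -/
abbrev V := ℕ × ℕ × ℕ × ℕ × ℕ × ℕ

/-- bound for one value of both sums -/
def cell (Em E0 Ep : Finset ℤ) (w : V) (h : ℤ) : ℕ :=
  2 * (mu Em Em h * w.1) + 2 * (mu Ep Ep h * w.2.1) + 4 * (mu Em E0 h * w.2.2.1) +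
    4 * (mu Ep E0 h * w.2.2.2.1) +
    max (2 * (mu E0 E0 h * w.2.2.2.2.1)) (4 * (mu Em Ep h * w.2.2.2.2.2))

/-- bound for one value of the second sum -/
noncomputable def row (P : ℤ) (Em E0 Ep : Finset ℤ) (w : V) : ℕ :=
  (Ico (0 : ℤ) P).sup fun g => ∑ h ∈ Ico (0 : ℤ) 28 with h % P = g, cell Em E0 Ep w h

/-- the overlaps of the windows are at most the given multiples of `N` -/
def Bd (N m A f : ℤ) (w : V) : Prop :=
  ov (2 * A) N (2 * A) N f ≤ w.1 * N ∧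
  ov 0 (N + m - 1) 0 (N + m - 1) f ≤ w.2.1 * N ∧
  ov (2 * A) N A (N + m / 2) f ≤ w.2.2.1 * N ∧
  ov 0 (N + m - 1) A (N + m / 2) f ≤ w.2.2.2.1 * N ∧
  ov A (N + m / 2) A (N + m / 2) f ≤ w.2.2.2.2.1 * N ∧
  ov (2 * A) N 0 (N + m - 1) f ≤ w.2.2.2.2.2 * N

/-- the three values of the second sum are bounded by a listed column -/
def Col (N m A f : ℤ) (L : List (V × V × V)) : Prop :=
  ∃ c ∈ L, Bd N m A (f - m) c.1 ∧ Bd N m A f c.2.1 ∧ Bd N m A (f + m) c.2.2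

/-- the possible columns -/
def LA : List (V × V × V) :=
  [((0, 0, 0, 0, 0, 0), (0, 4, 1, 3, 2, 1), (0, 3, 1, 2, 1, 1)),
   ((0, 3, 1, 2, 1, 1), (0, 4, 1, 3, 2, 1), (0, 1, 0, 0, 0, 0)),
   ((0, 1, 0, 1, 0, 0), (1, 5, 1, 3, 3, 1), (0, 2, 0, 1, 0, 0)),
   ((0, 2, 0, 1, 0, 0), (1, 5, 1, 3, 3, 1), (0, 1, 0, 1, 0, 0)),
   ((0, 2, 0, 2, 1, 1), (1, 4, 1, 3, 2, 1), (0, 1, 0, 0, 0, 0)),
   ((0, 1, 0, 0, 0, 0), (1, 4, 1, 3, 2, 1), (0, 2, 0, 2, 1, 1))]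

lemma zones_LA {N m A f : ℤ} (hN : 4 ≤ N) (h2 : 8 * N ≤ 3 * m) (h4 : m ≤ 4 * N)
    (hA : A = m / 4) (f1 : 2 * A + N - 1 ≤ f) (f2 : f < 2 * A + N - 1 + m) :
    Col N m A f LA := by
  have g1 : m / 2 - 1 ≤ 2 * A ∧ 2 * A ≤ m / 2 := by omega
  have g2 : m / 2 - A ≤ N := by omega
  by_cases c1 : ov (2 * A) N (2 * A) N f ≤ 0 * N
  · by_cases c2 : ov 0 (N + m - 1) 0 (N + m - 1) (f - m) ≤ 0 * N
    · refine ⟨((0, 0, 0, 0, 0, 0), (0, 4, 1, 3, 2, 1), (0, 3, 1, 2, 1, 1)), by decide, ?_⟩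
      simp only [Bd, ov, Nat.cast_ofNat, Nat.cast_zero, Nat.cast_one] at *
      refine ⟨⟨?_, ?_, ?_, ?_, ?_, ?_⟩, ⟨?_, ?_, ?_, ?_, ?_, ?_⟩,
        ?_, ?_, ?_, ?_, ?_, ?_⟩ <;> omega
    · refine ⟨((0, 3, 1, 2, 1, 1), (0, 4, 1, 3, 2, 1), (0, 1, 0, 0, 0, 0)), by decide, ?_⟩
      simp only [Bd, ov, Nat.cast_ofNat, Nat.cast_zero, Nat.cast_one] at *
      refine ⟨⟨?_, ?_, ?_, ?_, ?_, ?_⟩, ⟨?_, ?_, ?_, ?_, ?_, ?_⟩,
        ?_, ?_, ?_, ?_, ?_, ?_⟩ <;> omega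
  · by_cases c3 : ov A (N + m / 2) A (N + m / 2) (f + m) ≤ 0 * N
    · by_cases c4 : ov A (N + m / 2) A (N + m / 2) (f - m) ≤ 0 * N
      · by_cases c5 : ov 0 (N + m - 1) 0 (N + m - 1) (f - m) ≤ 1 * N
        · refine ⟨((0, 1, 0, 1, 0, 0), (1, 5, 1, 3, 3, 1), (0, 2, 0, 1, 0, 0)), by decide, ?_⟩
          simp only [Bd, ov, Nat.cast_ofNat, Nat.cast_zero, Nat.cast_one] at *
          refine ⟨⟨?_, ?_, ?_, ?_, ?_, ?_⟩, ⟨?_, ?_, ?_, ?_, ?_, ?_⟩,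
            ?_, ?_, ?_, ?_, ?_, ?_⟩ <;> omega
        · refine ⟨((0, 2, 0, 1, 0, 0), (1, 5, 1, 3, 3, 1), (0, 1, 0, 1, 0, 0)), by decide, ?_⟩
          simp only [Bd, ov, Nat.cast_ofNat, Nat.cast_zero, Nat.cast_one] at *
          refine ⟨⟨?_, ?_, ?_, ?_, ?_, ?_⟩, ⟨?_, ?_, ?_, ?_, ?_, ?_⟩,
            ?_, ?_, ?_, ?_, ?_, ?_⟩ <;> omega
      · refine ⟨((0, 2, 0, 2, 1, 1), (1, 4, 1, 3, 2, 1), (0, 1, 0, 0, 0, 0)), by decide, ?_⟩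
        simp only [Bd, ov, Nat.cast_ofNat, Nat.cast_zero, Nat.cast_one] at *
        refine ⟨⟨?_, ?_, ?_, ?_, ?_, ?_⟩, ⟨?_, ?_, ?_, ?_, ?_, ?_⟩,
          ?_, ?_, ?_, ?_, ?_, ?_⟩ <;> omega
    · refine ⟨((0, 1, 0, 0, 0, 0), (1, 4, 1, 3, 2, 1), (0, 2, 0, 2, 1, 1)), by decide, ?_⟩
      simp only [Bd, ov, Nat.cast_ofNat, Nat.cast_zero, Nat.cast_one] at *
      refine ⟨⟨?_, ?_, ?_, ?_, ?_, ?_⟩, ⟨?_, ?_, ?_, ?_, ?_, ?_⟩,
        ?_, ?_, ?_, ?_, ?_, ?_⟩ <;> omega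

/-- the possible columns -/
def LB : List (V × V × V) :=
  [((0, 1, 0, 0, 0, 0), (0, 6, 0, 4, 2, 1), (0, 2, 1, 2, 1, 1)),
   ((0, 2, 0, 0, 0, 0), (0, 6, 1, 4, 3, 1), (0, 2, 0, 1, 1, 1)),
   ((0, 5, 0, 3, 1, 1), (1, 3, 1, 3, 2, 1), (0, 0, 0, 0, 0, 0)),
   ((0, 3, 0, 1, 0, 0), (0, 5, 1, 4, 4, 1), (0, 1, 0, 0, 0, 0)),
   ((0, 4, 0, 2, 0, 0), (1, 4, 1, 4, 3, 1), (0, 0, 0, 0, 0, 0))]

lemma zones_LB {N m A f : ℤ} (hN : 4 ≤ N) (h2 : 4 * N ≤ m) (h4 : m ≤ 5 * N)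
    (hA : A = (m - N) / 2) (f1 : 2 * A + N - 1 ≤ f) (f2 : f < 2 * A + N - 1 + m) :
    Col N m A f LB := by
  by_cases c1 : ov 0 (N + m - 1) A (N + m / 2) (f - m) ≤ 0 * N
  · by_cases c2 : ov (2 * A) N A (N + m / 2) f ≤ 0 * N
    · refine ⟨((0, 1, 0, 0, 0, 0), (0, 6, 0, 4, 2, 1), (0, 2, 1, 2, 1, 1)), by decide, ?_⟩
      simp only [Bd, ov, Nat.cast_ofNat, Nat.cast_zero, Nat.cast_one] at *
      refine ⟨⟨?_, ?_, ?_, ?_, ?_, ?_⟩, ⟨?_, ?_, ?_, ?_, ?_, ?_⟩,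
        ?_, ?_, ?_, ?_, ?_, ?_⟩ <;> omega
    · refine ⟨((0, 2, 0, 0, 0, 0), (0, 6, 1, 4, 3, 1), (0, 2, 0, 1, 1, 1)), by decide, ?_⟩
      simp only [Bd, ov, Nat.cast_ofNat, Nat.cast_zero, Nat.cast_one] at *
      refine ⟨⟨?_, ?_, ?_, ?_, ?_, ?_⟩, ⟨?_, ?_, ?_, ?_, ?_, ?_⟩,
        ?_, ?_, ?_, ?_, ?_, ?_⟩ <;> omega
  · by_cases c3 : ov A (N + m / 2) A (N + m / 2) f ≤ 2 * N
    · refine ⟨((0, 5, 0, 3, 1, 1), (1, 3, 1, 3, 2, 1), (0, 0, 0, 0, 0, 0)), by decide, ?_⟩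
      simp only [Bd, ov, Nat.cast_ofNat, Nat.cast_zero, Nat.cast_one] at *
      refine ⟨⟨?_, ?_, ?_, ?_, ?_, ?_⟩, ⟨?_, ?_, ?_, ?_, ?_, ?_⟩,
        ?_, ?_, ?_, ?_, ?_, ?_⟩ <;> omega
    · by_cases c4 : ov (2 * A) N (2 * A) N f ≤ 0 * N
      · refine ⟨((0, 3, 0, 1, 0, 0), (0, 5, 1, 4, 4, 1), (0, 1, 0, 0, 0, 0)), by decide, ?_⟩
        simp only [Bd, ov, Nat.cast_ofNat, Nat.cast_zero, Nat.cast_one] at *
        refine ⟨⟨?_, ?_, ?_, ?_, ?_, ?_⟩, ⟨?_, ?_, ?_, ?_, ?_, ?_⟩,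
          ?_, ?_, ?_, ?_, ?_, ?_⟩ <;> omega
      · refine ⟨((0, 4, 0, 2, 0, 0), (1, 4, 1, 4, 3, 1), (0, 0, 0, 0, 0, 0)), by decide, ?_⟩
        simp only [Bd, ov, Nat.cast_ofNat, Nat.cast_zero, Nat.cast_one] at *
        refine ⟨⟨?_, ?_, ?_, ?_, ?_, ?_⟩, ⟨?_, ?_, ?_, ?_, ?_, ?_⟩,
          ?_, ?_, ?_, ?_, ?_, ?_⟩ <;> omega

/-- the possible columns -/
def LC : List (V × V × V) :=
  [((0, 6, 0, 4, 1, 1), (0, 6, 1, 4, 4, 1), (0, 0, 0, 0, 0, 0)),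
   ((0, 5, 0, 3, 0, 0), (1, 4, 1, 4, 3, 1), (0, 0, 0, 0, 0, 0)),
   ((0, 6, 0, 4, 1, 1), (1, 3, 1, 3, 2, 1), (0, 0, 0, 0, 0, 0)),
   ((0, 2, 0, 0, 0, 0), (0, 7, 0, 4, 3, 1), (0, 2, 1, 2, 1, 1)),
   ((0, 2, 0, 1, 0, 0), (0, 7, 1, 4, 3, 1), (0, 2, 0, 1, 1, 1))]

lemma zones_LC {N m A f : ℤ} (hN : 4 ≤ N) (h2 : 4 * N ≤ m) (h4 : 3 * m ≤ 16 * N)
    (hA : A = (m - N) / 2) (f1 : 2 * A + N - 1 ≤ f) (f2 : f < 2 * A + N - 1 + m) :
    Col N m A f LC := by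
  by_cases c1 : ov 0 (N + m - 1) 0 (N + m - 1) (f + m) ≤ 0 * N
  · by_cases c2 : ov (2 * A) N (2 * A) N f ≤ 0 * N
    · refine ⟨((0, 6, 0, 4, 1, 1), (0, 6, 1, 4, 4, 1), (0, 0, 0, 0, 0, 0)), by decide, ?_⟩
      simp only [Bd, ov, Nat.cast_ofNat, Nat.cast_zero, Nat.cast_one] at *
      refine ⟨⟨?_, ?_, ?_, ?_, ?_, ?_⟩, ⟨?_, ?_, ?_, ?_, ?_, ?_⟩,
        ?_, ?_, ?_, ?_, ?_, ?_⟩ <;> omega
    · by_cases c3 : ov A (N + m / 2) A (N + m / 2) (f - m) ≤ 0 * N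
      · refine ⟨((0, 5, 0, 3, 0, 0), (1, 4, 1, 4, 3, 1), (0, 0, 0, 0, 0, 0)), by decide, ?_⟩
        simp only [Bd, ov, Nat.cast_ofNat, Nat.cast_zero, Nat.cast_one] at *
        refine ⟨⟨?_, ?_, ?_, ?_, ?_, ?_⟩, ⟨?_, ?_, ?_, ?_, ?_, ?_⟩,
          ?_, ?_, ?_, ?_, ?_, ?_⟩ <;> omega
      · refine ⟨((0, 6, 0, 4, 1, 1), (1, 3, 1, 3, 2, 1), (0, 0, 0, 0, 0, 0)), by decide, ?_⟩
        simp only [Bd, ov, Nat.cast_ofNat, Nat.cast_zero, Nat.cast_one] at *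
        refine ⟨⟨?_, ?_, ?_, ?_, ?_, ?_⟩, ⟨?_, ?_, ?_, ?_, ?_, ?_⟩,
          ?_, ?_, ?_, ?_, ?_, ?_⟩ <;> omega
  · by_cases c4 : ov (2 * A) N A (N + m / 2) f ≤ 0 * N
    · refine ⟨((0, 2, 0, 0, 0, 0), (0, 7, 0, 4, 3, 1), (0, 2, 1, 2, 1, 1)), by decide, ?_⟩
      simp only [Bd, ov, Nat.cast_ofNat, Nat.cast_zero, Nat.cast_one] at *
      refine ⟨⟨?_, ?_, ?_, ?_, ?_, ?_⟩, ⟨?_, ?_, ?_, ?_, ?_, ?_⟩,
        ?_, ?_, ?_, ?_, ?_, ?_⟩ <;> omega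
    · refine ⟨((0, 2, 0, 1, 0, 0), (0, 7, 1, 4, 3, 1), (0, 2, 0, 1, 1, 1)), by decide, ?_⟩
      simp only [Bd, ov, Nat.cast_ofNat, Nat.cast_zero, Nat.cast_one] at *
      refine ⟨⟨?_, ?_, ?_, ?_, ?_, ?_⟩, ⟨?_, ?_, ?_, ?_, ?_, ?_⟩,
        ?_, ?_, ?_, ?_, ?_, ?_⟩ <;> omega

/-- a good choice of cells -/
def Good (P : ℤ) (Em E0 Ep : Finset ℤ) (L : List (V × V × V)) : Prop :=
  (∀ e ∈ Em ∪ E0 ∪ Ep, 0 ≤ e ∧ e ≤ 13) ∧
  (∀ g ∈ Ico (0 : ℤ) P, ∃ h ∈ Ico (0 : ℤ) 28, h % P = g ∧ 0 < r E0 E0 h ∧ 0 < r E0 E0 (h - 1) ∧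
    0 < r Em Ep h ∧ 0 < r Em Ep (h - 1)) ∧
  ∀ c ∈ L, row P Em E0 Ep c.1 + row P Em E0 Ep c.2.1 + row P Em E0 Ep c.2.2 ≤ 90

lemma good4A : Good 4 {0, 1, 2, 3, 4} {1, 2, 3} {2} LA := by
  unfold Good
  decide +kernel

lemma good4B : Good 4 {0, 1, 2, 3, 4} {1, 2, 3} {2} LB := by
  unfold Good
  decide +kernel

lemma good7A : Good 7 {2, 3, 4, 5, 6, 7, 8, 9} {1, 2, 3, 6} {0} LA := by
  unfold Good
  decide +kernel

lemma good8A : Good 8 {4, 5, 6, 7, 8, 9, 10, 11, 12} {2, 3, 5, 6} {0} LA := by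
  unfold Good
  decide +kernel

lemma good8C : Good 8 {4, 5, 6, 7, 8, 9, 10, 11, 12} {2, 3, 5, 6} {0} LC := by
  unfold Good
  decide +kernel

lemma nine {α : Type*} [DecidableEq α] (A B C : Finset α) (Q : α × α → Prop) [DecidablePred Q] :
    #{q ∈ (A ∪ B ∪ C) ×ˢ (A ∪ B ∪ C) | Q q} ≤
      #{q ∈ A ×ˢ A | Q q} + #{q ∈ A ×ˢ B | Q q} + #{q ∈ A ×ˢ C | Q q} +
      (#{q ∈ B ×ˢ A | Q q} + #{q ∈ B ×ˢ B | Q q} + #{q ∈ B ×ˢ C | Q q}) +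
      (#{q ∈ C ×ˢ A | Q q} + #{q ∈ C ×ˢ B | Q q} + #{q ∈ C ×ˢ C | Q q}) := by
  have h : ∀ X : Finset α, #{q ∈ X ×ˢ (A ∪ B ∪ C) | Q q} ≤
      #{q ∈ X ×ˢ A | Q q} + #{q ∈ X ×ˢ B | Q q} + #{q ∈ X ×ˢ C | Q q} := fun X => by
    rw [product_union, product_union, filter_union, filter_union]
    exact (card_union_le _ _).trans (Nat.add_le_add_right (card_union_le _ _) _)
  rw [union_product, union_product, filter_union, filter_union]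
  exact (card_union_le _ _).trans (Nat.add_le_add
    ((card_union_le _ _).trans (Nat.add_le_add (h A) (h B))) (h C))

variable {p : ℕ} [hp : Fact p.Prime] {v : ZMod p} {P : ℤ} {Em E0 Ep : Finset ℤ}

/-- the union of the three lifted parabolas -/
noncomputable def U (P : ℤ) (v : ZMod p) (Em E0 Ep : Finset ℤ) (m A : ℤ) : Finset (ℤ × ℤ) :=
  T P (1 + v) Em (2 * A) (P * p * p) ∪ T P (2 * v) E0 A (P * p * p + m / 2) ∪
    T P (v * (1 + v)) Ep 0 (P * p * p + m - 1)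

lemma cell_le (hv : Adm v) (hP : 0 < P) {m A s f d : ℤ} (hd : f = s + P * p * d) {w : V}
    (hB : Bd (P * p * p) m A f w) :
    #{q ∈ U P v Em E0 Ep m A ×ˢ U P v Em E0 Ep m A | q.1.1 + q.2.1 = s ∧ q.1.2 + q.2.2 = f} ≤
      cell Em E0 Ep w (s / p) := by
  obtain ⟨b1, b2, b3, b4, b5, b6⟩ := hB
  have two : ∀ {l l' : ZMod p} (_ : l + l' ≠ 0) (E E' : Finset ℤ) {a L a' L' : ℤ} {ν : ℕ}
      (_ : ov a L a' L' f ≤ ν * (P * p * p)),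
      #{q ∈ T P l E a L ×ˢ T P l' E' a' L' | q.1.1 + q.2.1 = s ∧ q.1.2 + q.2.2 = f} ≤
        mu E E' (s / p) * ν * 2 := fun h E E' _ _ _ _ _ hν =>
    (pair_le hP _ _ E E' _ _ _ _ s f d hd _ hν).trans (Nat.mul_le_mul_left _ (rho_le h _ _))
  have n1 : 1 + v + 2 * v ≠ 0 := fun e => hv.h2 (by linear_combination e)
  have n2 : v * (1 + v) + 2 * v ≠ 0 := fun e =>
    mul_ne_zero hv.ne hv.h3 (by linear_combination e)
  have c1 := two (l := 1 + v) (l' := 1 + v)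
    (by rw [← two_mul]; exact mul_ne_zero hv.two hv.h1) Em Em b1
  have c2 := two (l := v * (1 + v)) (l' := v * (1 + v))
    (by rw [← two_mul]; exact mul_ne_zero hv.two (mul_ne_zero hv.ne hv.h1)) Ep Ep b2
  have c3 := two n1 Em E0 b3
  have c4 := two (add_comm _ (2 * v) ▸ n1) E0 Em (ov_comm _ _ _ _ f ▸ b3)
  have c5 := two n2 Ep E0 b4
  have c6 := two (add_comm _ (2 * v) ▸ n2) E0 Ep (ov_comm _ _ _ _ f ▸ b4)
  have c7 := pair_le hP (2 * v) (2 * v) E0 E0 _ _ _ _ s f d hd _ b5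
  have c8 := pair_le hP (1 + v) (v * (1 + v)) Em Ep _ _ _ _ s f d hd _ b6
  have c9 := pair_le hP (v * (1 + v)) (1 + v) Ep Em _ _ _ _ s f d hd _ (ov_comm _ _ _ _ f ▸ b6)
  have j := hv.joint s d (mu E0 E0 (s / p) * w.2.2.2.2.1) (mu Em Ep (s / p) * w.2.2.2.2.2)
  rw [mu_comm E0 Em] at c4
  rw [mu_comm E0 Ep] at c6
  rw [mu_comm Ep Em] at c9
  refine (nine _ _ _ _).trans ?_
  unfold cell
  omega

lemma mem_U {m A : ℤ} {t : ℤ × ℤ} (h : t ∈ U P v Em E0 Ep m A) (h2 : 0 ≤ A ∧ 2 * A + 2 ≤ m) :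
    t.1 / p ∈ Em ∪ E0 ∪ Ep ∧ 0 ≤ t.2 ∧ t.2 < P * p * p + m - 1 ∧ ∃ y, t.2 = t.1 + P * p * y := by
  simp only [U, mem_union, mem_T] at h ⊢
  rcases h with (⟨a, b, c, y, e, -⟩ | ⟨a, b, c, y, e, -⟩) | ⟨a, b, c, y, e, -⟩
  · exact ⟨Or.inl (Or.inl a), by omega, by omega, y, e⟩
  · exact ⟨Or.inl (Or.inr a), by omega, by omega, y, e⟩
  · exact ⟨Or.inr a, by omega, by omega, y, e⟩

lemma row_le (hv : Adm v) (hP : 0 < P) (hE : ∀ e ∈ Em ∪ E0 ∪ Ep, 0 ≤ e ∧ e ≤ 13) {m A f : ℤ}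
    (hm : 0 ≤ A ∧ 2 * A + 2 ≤ m) {w : V} (hB : Bd (P * p * p) m A f w) :
    #{q ∈ U P v Em E0 Ep m A ×ˢ U P v Em E0 Ep m A | q.1.2 + q.2.2 = f} ≤ row P Em E0 Ep w := by
  have h0 := p_pos (p := p)
  have key : ∀ q ∈ U P v Em E0 Ep m A ×ˢ U P v Em E0 Ep m A, q.1.2 + q.2.2 = f →
      (q.1.1 + q.2.1) / p ∈ Ico (0 : ℤ) 28 ∧ ∃ y, f = q.1.1 + q.2.1 + p * (P * y) := by
    intro q hq hf
    obtain ⟨a1, -, -, y, e⟩ := mem_U (mem_product.1 hq).1 hm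
    obtain ⟨a2, -, -, y', e'⟩ := mem_U (mem_product.1 hq).2 hm
    have c := carry h0 (q.1.1 + q.2.1) q.1.1
    rw [add_sub_cancel_left] at c
    have := hE _ a1
    have := hE _ a2
    refine ⟨mem_Ico.2 ?_, y + y', by linear_combination e + e' - hf⟩
    split_ifs at c <;> omega
  refine le_trans ?_ (le_sup (s := Ico (0 : ℤ) P)
    (f := fun g => ∑ h ∈ Ico (0 : ℤ) 28 with h % P = g, cell Em E0 Ep w h)
    (mem_Ico.2 ⟨Int.emod_nonneg (f / p) hP.ne', Int.emod_lt_of_pos _ hP⟩))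
  rw [card_eq_sum_card_fiberwise (f := fun q : (ℤ × ℤ) × ℤ × ℤ => (q.1.1 + q.2.1) / (p : ℤ))
    (t := (Ico (0 : ℤ) 28).filter fun h => h % P = f / p % P)]
  · refine sum_le_sum fun h hh => ?_
    obtain ⟨d, hd⟩ := Int.ModEq.dvd (mem_filter.1 hh).2
    have a1 := Int.emod_add_mul_ediv f p
    have e : (f % p + p * h) / p = h :=
      dv (Int.emod_nonneg f h0.ne') (Int.emod_lt_of_pos f h0) rfl
    have := cell_le (Em := Em) (E0 := E0) (Ep := Ep) hv hP (s := f % p + p * h) (d := d)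
      (by linear_combination p * hd - a1) hB
    rw [e] at this
    refine (card_le_card fun q hq => ?_).trans this
    obtain ⟨hq, h1⟩ := mem_filter.1 hq
    obtain ⟨hq, hf⟩ := mem_filter.1 hq
    obtain ⟨-, y, e'⟩ := key q hq hf
    refine mem_filter.2 ⟨hq, ?_, hf⟩
    rw [e', Int.add_mul_emod_self_left, ← h1, Int.emod_add_mul_ediv]
  · intro q hq
    obtain ⟨hq, hf⟩ := mem_filter.1 (mem_coe.1 hq)
    obtain ⟨a, y, e⟩ := key q hq hf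
    refine mem_coe.2 (mem_filter.2 ⟨a, ?_⟩)
    rw [e, Int.add_mul_ediv_left _ _ h0.ne', Int.add_mul_emod_self_left]

lemma cover (hv : Adm v) (hP : 0 < P) {L : List (V × V × V)} (hG : Good P Em E0 Ep L) {m A f : ℤ}
    (f1 : 2 * A + P * p * p - 1 ≤ f) (f2 : f < 2 * A + P * p * p - 1 + m) :
    ∃ t ∈ U P v Em E0 Ep m A, ∃ t' ∈ U P v Em E0 Ep m A, t.2 + t'.2 = f := by
  have h0 := p_pos (p := p)
  obtain ⟨h, -, hh, r1, r2, r3, r4⟩ := hG.2.1 _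
    (mem_Ico.2 ⟨Int.emod_nonneg (f / p) hP.ne', Int.emod_lt_of_pos _ hP⟩)
  obtain ⟨d, hd⟩ := Int.ModEq.dvd hh
  have a1 := Int.emod_add_mul_ediv f p
  have e : (f % p + p * h) / p = h :=
    dv (Int.emod_nonneg f h0.ne') (Int.emod_lt_of_pos f h0) rfl
  have hf : f = f % p + p * h + P * p * d := by linear_combination p * hd - a1
  rw [← e] at r1 r2 r3 r4
  rcases hv.cover ((f % p + p * h : ℤ) : ZMod p) d with c | c
  · obtain ⟨t, ht, t', ht', e⟩ := pair_ex hP _ _ E0 E0 A (P * p * p + m / 2) A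
      (P * p * p + m / 2) _ f d hf (by unfold ov; omega) r1 r2 c
    exact ⟨t, mem_union_left _ (mem_union_right _ ht), t',
      mem_union_left _ (mem_union_right _ ht'), e⟩
  · obtain ⟨t, ht, t', ht', e⟩ := pair_ex hP _ _ Em Ep (2 * A) (P * p * p) 0
      (P * p * p + m - 1) _ f d hf (by unfold ov; omega) r3 r4 c
    exact ⟨t, mem_union_left _ (mem_union_left _ ht), t', mem_union_right _ ht', e⟩

lemma design (hv : Adm v) (hP : 0 < P) {L : List (V × V × V)} (hG : Good P Em E0 Ep L) {m : ℕ}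
    (A : ℤ) (hN : 4 ≤ P * p * p) (h2 : P * p * p ≤ 2 * A + 1) (h4 : 2 * A + P * p * p ≤ m)
    (hz : ∀ f, 2 * A + P * p * p - 1 ≤ f → f < 2 * A + P * p * p - 1 + m →
      Col (P * p * p) m A f L) :
    ∃ B : Finset (ZMod m), ∀ n : ZMod m, 1 ≤ #{q ∈ B ×ˢ B | q.1 + q.2 = n} ∧
      #{q ∈ B ×ˢ B | q.1 + q.2 = n} ≤ 90 := by
  have hm : 0 ≤ A ∧ 2 * A + 2 ≤ m := by omega
  refine ⟨(U P v Em E0 Ep m A).image fun t => (t.2 : ZMod m), fun n => ?_⟩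
  obtain ⟨z, rfl⟩ := ZMod.intCast_surjective n
  set F : ℤ := 2 * A + P * p * p - 1 with hF
  set f : ℤ := F + (z - F) % m with hf
  have f1 := Int.emod_nonneg (z - F) (by omega : (m : ℤ) ≠ 0)
  have f2 := Int.emod_lt_of_pos (z - F) (by omega : (0 : ℤ) < m)
  have hz' : (f : ZMod m) = z := by simp [hf]
  constructor
  · obtain ⟨t, ht, t', ht', e⟩ := cover (m := m) (A := A) (f := f) hv hP hG (by omega) (by omega)
    refine card_pos.2 ⟨((t.2 : ZMod m), (t'.2 : ZMod m)), mem_filter.2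
      ⟨mem_product.2 ⟨mem_image_of_mem _ ht, mem_image_of_mem _ ht'⟩, ?_⟩⟩
    rw [← hz', ← e, Int.cast_add]
  · obtain ⟨c, hc, b1, b2, b3⟩ := hz f (by omega) (by omega)
    have c1 := row_le hv hP hG.1 hm b1
    have c2 := row_le hv hP hG.1 hm b2
    have c3 := row_le hv hP hG.1 hm b3
    refine le_trans ?_ ((Nat.add_le_add (Nat.add_le_add c1 c2) c3).trans (hG.2.2 c hc))
    refine le_trans ?_ ((card_union_le _ _).trans (Nat.add_le_add_right (card_union_le _ _) _))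
    refine card_le_card_of_surjOn (fun q => ((q.1.2 : ZMod m), (q.2.2 : ZMod m))) fun x hx => ?_
    obtain ⟨hx, e⟩ := mem_filter.1 (mem_coe.1 hx)
    obtain ⟨t, ht, e1⟩ := mem_image.1 (mem_product.1 hx).1
    obtain ⟨t', ht', e2⟩ := mem_image.1 (mem_product.1 hx).2
    refine ⟨(t, t'), ?_, Prod.ext e1 e2⟩
    obtain ⟨-, a1, a2, -⟩ := mem_U ht hm
    obtain ⟨-, a3, a4, -⟩ := mem_U ht' hm
    obtain ⟨k, hk⟩ := (ZMod.intCast_eq_intCast_iff_dvd_sub f (t.2 + t'.2) m).1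
      (by rw [hz', ← e, ← e1, ← e2, Int.cast_add])
    have k1 : -2 < k := lt_of_mul_lt_mul_left (a := (m : ℤ)) (by omega) (by omega)
    have k2 : k < 2 := lt_of_mul_lt_mul_left (a := (m : ℤ)) (by omega) (by omega)
    have hq := mk_mem_product ht ht'
    simp only [mem_coe, mem_union, mem_filter, hq, true_and]
    obtain rfl | rfl | rfl : k = -1 ∨ k = 0 ∨ k = 1 := by omega
    all_goals omega

lemma small {m : ℕ} (h1 : 1 ≤ m) (t : ℕ) (h : m ≤ t * t) :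
    ∃ A : Finset (ZMod m), ∀ n : ZMod m, 1 ≤ #{q ∈ A ×ˢ A | q.1 + q.2 = n} ∧
      #{q ∈ A ×ˢ A | q.1 + q.2 = n} ≤ t + t := by
  have : NeZero m := ⟨by omega⟩
  have ht : 0 < t := Nat.pos_of_ne_zero fun e => by simp [e] at h; omega
  set A : Finset (ZMod m) := (range t).image (fun i : ℕ => (i : ZMod m)) ∪
    (range t).image fun i : ℕ => ((t * i : ℕ) : ZMod m) with hA
  refine ⟨A, fun n => ⟨card_pos.2 ⟨(((n.val % t : ℕ) : ZMod m), ((t * (n.val / t) : ℕ) : ZMod m)),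
    mem_filter.2 ⟨mem_product.2 ⟨mem_union_left _ (mem_image_of_mem _
      (mem_range.2 (Nat.mod_lt _ ht))), mem_union_right _ (mem_image_of_mem _
      (mem_range.2 (Nat.div_lt_of_lt_mul (n.val_lt.trans_le h))))⟩, ?_⟩⟩, ?_⟩⟩
  · rw [← Nat.cast_add, Nat.mod_add_div, ZMod.natCast_zmod_val]
  · have cA : #A ≤ t + t := (card_union_le _ _).trans (Nat.add_le_add
      (card_image_le.trans (card_range t).le) (card_image_le.trans (card_range t).le))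
    refine (card_le_card_of_injOn (t := A) Prod.fst (fun q hq => ?_) fun q hq q' hq' e => ?_).trans cA
    · exact (mem_product.1 (mem_filter.1 (mem_coe.1 hq)).1).1
    · have a := (mem_filter.1 (mem_coe.1 hq)).2
      have b := (mem_filter.1 (mem_coe.1 hq')).2
      exact Prod.ext e (by linear_combination a - b - e)

lemma at_prime (hv : Adm v) (h11 : 11 ≤ p) {m : ℕ} (h1 : 32 * (p * p) ≤ 3 * m)
    (h2 : 3 * m ≤ 128 * (p * p)) :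
    ∃ B : Finset (ZMod m), ∀ n : ZMod m, 1 ≤ #{q ∈ B ×ˢ B | q.1 + q.2 = n} ∧
      #{q ∈ B ×ˢ B | q.1 + q.2 = n} ≤ 90 := by
  have e : ((p * p : ℕ) : ℤ) = p * p := Nat.cast_mul p p
  have h0 : 11 * 11 ≤ p * p := Nat.mul_le_mul h11 h11
  have e' : ∀ k : ℤ, k * p * p = k * (p * p : ℕ) := fun k => by rw [mul_assoc, e]
  have e4 := e' 4
  have e7 := e' 7
  have e8 := e' 8
  rcases le_or_gt m (16 * (p * p)) with c1 | c1
  · exact design hv (by norm_num) good4A (m / 4) (by omega) (by omega) (by omega)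
      fun f => zones_LA (by omega) (by omega) (by omega) rfl
  rcases le_or_gt m (20 * (p * p)) with c2 | c2
  · exact design hv (by norm_num) good4B ((m - 4 * p * p) / 2) (by omega) (by omega) (by omega)
      fun f => zones_LB (by omega) (by omega) (by omega) rfl
  rcases le_or_gt m (28 * (p * p)) with c3 | c3
  · exact design hv (by norm_num) good7A (m / 4) (by omega) (by omega) (by omega)
      fun f => zones_LA (by omega) (by omega) (by omega) rfl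
  rcases le_or_gt m (32 * (p * p)) with c4 | c4
  · exact design hv (by norm_num) good8A (m / 4) (by omega) (by omega) (by omega)
      fun f => zones_LA (by omega) (by omega) (by omega) rfl
  · exact design hv (by norm_num) good8C ((m - 8 * p * p) / 2) (by omega) (by omega) (by omega)
      fun f => zones_LC (by omega) (by omega) (by omega) rfl

theorem bound (m : ℕ) (h1 : 1 ≤ m) :
    ∃ A : Finset (ZMod m), ∀ n : ZMod m, 1 ≤ #{q ∈ A ×ˢ A | q.1 + q.2 = n} ∧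
      #{q ∈ A ×ˢ A | q.1 + q.2 = n} ≤ 90 := by
  rcases le_or_gt m 2025 with h | h
  · exact small h1 45 h
  rcases le_or_gt m 5000 with h' | h'
  · have : Fact (Nat.Prime 11) := ⟨by norm_num⟩
    obtain ⟨v, hv⟩ := exists_adm (p := 11) le_rfl
    exact at_prime hv le_rfl (by omega) (by omega)
  have s1 : 10 ≤ Nat.sqrt (3 * m / 128) := Nat.le_sqrt.2 (by omega)
  obtain ⟨p, hp, p1, p2⟩ := Nat.exists_prime_lt_and_le_two_mul (Nat.sqrt (3 * m / 128)) (by omega)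
  have : Fact p.Prime := ⟨hp⟩
  have a1 : 3 * m / 128 < p * p := (Nat.sqrt_lt).1 p1
  have a2 : p * p ≤ 4 * (3 * m / 128) := by nlinarith [Nat.sqrt_le (3 * m / 128)]
  obtain ⟨v, hv⟩ := exists_adm (p := p) (by omega)
  exact at_prime hv (by omega) (by omega) (by omega)

end Pool.Agent.MP_344049_nt.RZ
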