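import Mathlib

/-! Lifting two parabolas over `ZMod p` to windows of integers: counting and existence. -/

set_option autoImplicit false

namespace Pool.Agent.MP_344049_nt.RZ

open Finset

/-- length of the overlap of `[a, a + L)` with `f - [b, b + M)` -/
def ov (a L b M f : ℤ) : ℤ := min (a + L) (f - b + 1) - max a (f - b - M + 1)

/-- number of representations of `h` in `E + F` -/
def r (E F : Finset ℤ) (h : ℤ) : ℕ := #{e ∈ E | h - e ∈ F}

/-- the worse of the two carries -/
def mu (E F : Finset ℤ) (h : ℤ) : ℕ := max (r E F h) (r E F (h - 1))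

lemma r_comm (E F : Finset ℤ) (h : ℤ) : r E F h = r F E h := by
  refine card_nbij' (h - ·) (h - ·) ?_ ?_ ?_ ?_ <;> intro e he <;> simp_all

lemma mu_comm (E F : Finset ℤ) (h : ℤ) : mu E F h = mu F E h := by
  rw [mu, mu, r_comm E F, r_comm E F]

lemma ov_comm (a L b M f : ℤ) : ov a L b M f = ov b M a L f := by
  unfold ov
  omega

lemma dv {p k t x : ℤ} (h0 : 0 ≤ t) (h1 : t < p) (h : x = t + p * k) : x / p = k := by
  subst h
  rw [Int.add_mul_ediv_left _ _ (by omega), Int.ediv_eq_zero_of_lt h0 h1, zero_add]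

lemma carry {p : ℤ} (hp : 0 < p) (s x : ℤ) :
    (s - x) / p = s / p - (if x % p ≤ s % p then 0 else 1) - x / p := by
  have a1 := Int.emod_add_mul_ediv s p
  have a2 := Int.emod_add_mul_ediv x p
  have b1 := Int.emod_nonneg s hp.ne'
  have b2 := Int.emod_nonneg x hp.ne'
  have c1 := Int.emod_lt_of_pos s hp
  have c2 := Int.emod_lt_of_pos x hp
  split_ifs with h
  · exact dv (t := s % p - x % p) (by omega) (by omega) (by linear_combination a2 - a1)
  · exact dv (t := s % p - x % p + p) (by omega) (by omega) (by linear_combination a2 - a1)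

variable {p : ℕ} [hp : Fact p.Prime]

/-- representations of `(c, d)` by two parabolas -/
def rho (l l' c d : ZMod p) : Finset (ZMod p) := {u | l * u ^ 2 + l' * (c - u) ^ 2 = d}

open Classical in
/-- the lift of the parabola `y = l x²` -/
noncomputable def T (P : ℤ) (l : ZMod p) (E : Finset ℤ) (a L : ℤ) : Finset (ℤ × ℤ) :=
  {t ∈ (E.biUnion fun e => Ico (p * e) (p * e + p)) ×ˢ Ico a (a + L) |
    ∃ y : ℤ, t.2 = t.1 + P * p * y ∧ (y : ZMod p) = l * (t.1 : ZMod p) ^ 2}

lemma p_pos : (0 : ℤ) < p := by exact_mod_cast hp.out.pos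

lemma mem_T {P : ℤ} {l : ZMod p} {E : Finset ℤ} {a L : ℤ} {t : ℤ × ℤ} :
    t ∈ T P l E a L ↔ t.1 / p ∈ E ∧ a ≤ t.2 ∧ t.2 < a + L ∧
      ∃ y : ℤ, t.2 = t.1 + P * p * y ∧ (y : ZMod p) = l * (t.1 : ZMod p) ^ 2 := by
  have h0 := p_pos (p := p)
  have : (∃ e ∈ E, p * e ≤ t.1 ∧ t.1 < p * e + p) ↔ t.1 / p ∈ E := by
    constructor
    · rintro ⟨e, he, h1, h2⟩
      rwa [dv (p := p) (k := e) (t := t.1 - p * e) (by omega) (by omega) (by ring)]
    · intro h
      have a1 := Int.emod_add_mul_ediv t.1 p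
      have b1 := Int.emod_nonneg t.1 h0.ne'
      have c1 := Int.emod_lt_of_pos t.1 h0
      exact ⟨_, h, by omega, by omega⟩
  simp only [T, mem_filter, mem_product, mem_biUnion, mem_Ico, this, and_assoc]

lemma pair_le {P : ℤ} (hP : 0 < P) (l l' : ZMod p) (E E' : Finset ℤ) (a L a' L' s f d : ℤ)
    (hd : f = s + P * p * d) (ν : ℕ) (hν : ov a L a' L' f ≤ ν * (P * p * p)) :
    #{q ∈ T P l E a L ×ˢ T P l' E' a' L' | q.1.1 + q.2.1 = s ∧ q.1.2 + q.2.2 = f} ≤
      mu E E' (s / p) * ν * #(rho l l' s d) := by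
  have h0 := p_pos (p := p)
  have hN : 0 < P * p * p := by positivity
  refine card_le_mul_card_image_of_maps_to (f := fun q => (q.1.1 : ZMod p)) (fun q hq => ?_) _
    fun u _ => ?_
  · obtain ⟨hq, h1, h2⟩ := mem_filter.1 hq
    obtain ⟨-, -, -, y, e1, e2⟩ := mem_T.1 (mem_product.1 hq).1
    obtain ⟨-, -, -, y', e3, e4⟩ := mem_T.1 (mem_product.1 hq).2
    have : d = y + y' := mul_left_cancel₀ (a := P * p) (by positivity)
      (by linear_combination e1 + e3 - h2 - hd + h1)
    simp only [rho, mem_filter, mem_univ, true_and, this, ← h1]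
    push_cast
    rw [e2, e4]
    ring
  · set k : ℤ := if (u.val : ℤ) ≤ s % p then 0 else 1 with hk
    set lo := max a (f - a' - L' + 1) with hlo
    have hw : ∀ x : ℤ, (x : ZMod p) = u → x % p = u.val := fun x hx => by
      rw [← hx, ZMod.val_intCast]
    refine (card_le_card_of_injOn (t := {e ∈ E | s / p - k - e ∈ E'} ×ˢ Ico (0 : ℤ) ν)
      (fun q => (q.1.1 / p, (q.1.2 - lo) / (P * p * p))) (fun q hq => ?_) ?_).trans ?_
    · obtain ⟨hq, hu⟩ := mem_filter.1 (mem_coe.1 hq)
      obtain ⟨hq, h1, h2⟩ := mem_filter.1 hq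
      obtain ⟨a1, a2, a3, -⟩ := mem_T.1 (mem_product.1 hq).1
      obtain ⟨b1, b2, b3, -⟩ := mem_T.1 (mem_product.1 hq).2
      have c := carry h0 s q.1.1
      rw [hw _ hu, ← hk, show s - q.1.1 = q.2.1 by omega] at c
      unfold ov at hν
      refine mem_coe.2 (mem_product.2 ⟨mem_filter.2 ⟨a1, c ▸ b1⟩, mem_Ico.2
        ⟨Int.ediv_nonneg (by omega) hN.le, Int.ediv_lt_of_lt_mul hN (by omega)⟩⟩)
    · intro q hq q' hq' e
      obtain ⟨hq, hu⟩ := mem_filter.1 (mem_coe.1 hq)
      obtain ⟨hq, h1, h2⟩ := mem_filter.1 hq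
      obtain ⟨-, -, -, y, e1, e2⟩ := mem_T.1 (mem_product.1 hq).1
      obtain ⟨hq', hu'⟩ := mem_filter.1 (mem_coe.1 hq')
      obtain ⟨hq', h1', h2'⟩ := mem_filter.1 hq'
      obtain ⟨-, -, -, y', e1', e2'⟩ := mem_T.1 (mem_product.1 hq').1
      obtain ⟨g1, g2⟩ := Prod.mk.inj e
      have x1 : q.1.1 = q'.1.1 := by
        rw [← Int.emod_add_mul_ediv q.1.1 p, ← Int.emod_add_mul_ediv q'.1.1 p, hw _ hu, hw _ hu', g1]
      obtain ⟨j, hj⟩ := (ZMod.intCast_eq_intCast_iff_dvd_sub y y' p).1 (by rw [e2, e2', x1])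
      have x2 : q'.1.2 - lo = q.1.2 - lo + P * p * p * j := by
        linear_combination e1' - e1 - x1 + P * p * hj
      rw [x2, Int.add_mul_ediv_left _ _ hN.ne'] at g2
      have x3 : j = 0 := by omega
      rw [x3] at x2
      exact Prod.ext (Prod.ext x1 (by omega)) (Prod.ext (by omega) (by omega))
    · rw [card_product, Int.card_Ico, sub_zero, Int.toNat_natCast]
      refine Nat.mul_le_mul_right _ ?_
      rw [hk]
      split_ifs
      · rw [sub_zero]
        exact le_max_left _ _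
      · exact le_max_right _ _

lemma pair_ex {P : ℤ} (hP : 0 < P) (l l' : ZMod p) (E E' : Finset ℤ) (a L a' L' s f d : ℤ)
    (hd : f = s + P * p * d) (hov : P * p * p ≤ ov a L a' L' f) (r0 : 0 < r E E' (s / p))
    (r1 : 0 < r E E' (s / p - 1)) (hu : (rho l l' (s : ZMod p) d).Nonempty) :
    ∃ t ∈ T P l E a L, ∃ t' ∈ T P l' E' a' L', t.2 + t'.2 = f := by
  have h0 := p_pos (p := p)
  have hN : 0 < P * p * p := by positivity
  obtain ⟨u, hu⟩ := hu
  simp only [rho, mem_filter, mem_univ, true_and] at hu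
  set k : ℤ := if (u.val : ℤ) ≤ s % p then 0 else 1 with hk
  obtain ⟨e, he⟩ : {e ∈ E | s / p - k - e ∈ E'}.Nonempty := by
    rw [hk]
    split_ifs
    · rw [sub_zero]
      exact card_pos.1 r0
    · exact card_pos.1 r1
  obtain ⟨he, he'⟩ := mem_filter.1 he
  set x : ℤ := u.val + p * e with hx
  have x1 : (x : ZMod p) = u := by simp [hx]
  have x2 : x / p = e := dv (by positivity) (by exact_mod_cast u.val_lt) hx
  have c := carry h0 s x
  rw [← ZMod.val_intCast (a := x), x1, ← hk, x2] at c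
  set lo := max a (f - a' - L' + 1) with hlo
  set y0 : ℤ := ((l * u ^ 2).val : ℤ) with hy0
  set z := x + P * p * y0 - lo with hz
  have a1 := Int.emod_add_mul_ediv z (P * p * p)
  have b1 := Int.emod_nonneg z hN.ne'
  have c1 := Int.emod_lt_of_pos z hN
  unfold ov at hov
  refine ⟨(x, lo + z % (P * p * p)), mem_T.2 ⟨x2 ▸ he, by dsimp only; omega, by dsimp only; omega,
    y0 - p * (z / (P * p * p)), by dsimp only; linear_combination a1 + hz, by simp [hy0, x1]⟩,
    (s - x, f - (lo + z % (P * p * p))), mem_T.2 ⟨c ▸ he', by dsimp only; omega,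
    by dsimp only; omega, d - (y0 - p * (z / (P * p * p))),
    by dsimp only; linear_combination hd - a1 - hz, ?_⟩, by ring⟩
  simp [hy0, x1, ← hu]

lemma rho_le {l l' : ZMod p} (h : l + l' ≠ 0) (c d : ZMod p) : #(rho l l' c d) ≤ 2 := by
  rcases (rho l l' c d).eq_empty_or_nonempty with e | ⟨u, hu⟩
  · simp [e]
  refine (card_le_card (t := {u, 2 * l' * c / (l + l') - u}) fun v hv => ?_).trans card_le_two
  simp only [rho, mem_filter, mem_univ, true_and] at hu hv
  have : (v - u) * ((l + l') * (v + u) - 2 * l' * c) = 0 := by linear_combination hv - hu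
  rcases mul_eq_zero.1 this with h1 | h1
  · exact mem_insert.2 (Or.inl (sub_eq_zero.1 h1))
  · refine mem_insert.2 (Or.inr (mem_singleton.2 ?_))
    field_simp
    linear_combination h1

end Pool.Agent.MP_344049_nt.RZ
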